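import Pool.Agent.QSN.StmtsE

set_option autoImplicit false

/-!
# QSN, row ABO: the root spaces of `SO (p, p + d)` are abelian
-/

namespace Pool.Agent.QSN.H58

open Matrix Finset Pool.Agent.QSX Pool.Agent.QSN

variable {p d : ℕ}

/-- the coordinate vector of an outer index -/
noncomputable def cv (a : Fin (2 * p + d)) : Fin (2 * p + d) → ℝ := fun k =>
  if k = a then 1 else if k = Fin.rev a then -1 else 0

theorem rev_ne {a : Fin (2 * p + d)} (ha : ¬ Md p d a) : Fin.rev a ≠ a := by
  intro h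
  have h1 := congrArg Fin.val h
  rw [Fin.val_rev] at h1
  have := a.2
  unfold Md at ha
  omega

theorem cv_mem {a : Fin (2 * p + d)} (ha : ¬ Md p d a) : cv a ∈ (datO p d).b := by
  show ∀ k, cv a (sg p d k) = - cv a k
  intro k
  by_cases hk : Md p d k
  · rw [sg_mid hk]
    have h1 : k ≠ a := fun h => ha (h ▸ hk)
    have h2 : k ≠ Fin.rev a := fun h => ha (md_rev.1 (h ▸ hk))
    unfold cv
    rw [if_neg h1, if_neg h2]
    norm_num
  · rw [sg_out hk]
    unfold cv
    by_cases h1 : k = a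
    · rw [if_pos h1, if_neg (by rw [h1]; exact rev_ne ha), if_pos (by rw [h1])]
    · rw [if_neg h1]
      by_cases h2 : k = Fin.rev a
      · rw [if_pos h2, if_pos (by rw [h2, Fin.rev_rev])]
        norm_num
      · rw [if_neg h2, if_neg (fun h => h2 (by rw [← h, Fin.rev_rev])),
          if_neg (fun h => h1 (Fin.rev_injective h))]
        norm_num

theorem wt_entry {Y : Dat} {ρ : Y.b →ₗ[ℝ] ℝ} {x : Matrix (Fin Y.m) (Fin Y.m) ℝ}
    (hx : ∀ c : Y.b, diagonal (c : Fin Y.m → ℝ) * x - x * diagonal (c : Fin Y.m → ℝ) = ρ c • x)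
    {i j : Fin Y.m} (h : x i j ≠ 0) (c : Y.b) : c.1 i - c.1 j = ρ c := by
  have h1 := congrFun (congrFun (hx c) i) j
  rw [Matrix.sub_apply, Matrix.diagonal_mul, Matrix.mul_diagonal, Matrix.smul_apply,
    smul_eq_mul] at h1
  have h2 : (c.1 i - c.1 j - ρ c) * x i j = 0 := by
    linear_combination h1
  rcases mul_eq_zero.1 h2 with h3 | h3
  · linarith
  · exact absurd h3 h

theorem key {ρ : (datO p d).b →ₗ[ℝ] ℝ} {x y : Matrix (Fin (datO p d).m) (Fin (datO p d).m) ℝ}
    (hxn : x ∈ (datO p d).n)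
    (hx : ∀ c : (datO p d).b, diagonal (c : Fin (datO p d).m → ℝ) * x -
      x * diagonal (c : Fin (datO p d).m → ℝ) = ρ c • x)
    (hy : ∀ c : (datO p d).b, diagonal (c : Fin (datO p d).m → ℝ) * y -
      y * diagonal (c : Fin (datO p d).m → ℝ) = ρ c • y)
    {i h j : Fin (2 * p + d)} (h1 : x i h ≠ 0) (h2 : y h j ≠ 0) :
    Md p d h ∧ ¬ Md p d i ∧ j = sg p d i := by
  obtain ⟨hx1, -, hx3⟩ := hxn
  have hih : i < h := by
    by_contra h'
    exact h1 (hx1 i h (not_lt.1 h'))
  have hst : ∀ c : (datO p d).b, 2 * (c.1 : Fin (2 * p + d) → ℝ) h =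
      (c.1 : Fin (2 * p + d) → ℝ) i + (c.1 : Fin (2 * p + d) → ℝ) j := by
    intro c
    have h3 := wt_entry (Y := datO p d) hx h1 c
    have h4 := wt_entry (Y := datO p d) hy h2 c
    linarith
  have hle : ∀ a k : Fin (2 * p + d), cv a k ≤ 1 := by
    intro a k
    unfold cv
    split_ifs <;> norm_num
  have hmh : Md p d h := by
    by_contra hm
    have h3 : 2 * cv h h = cv h i + cv h j := hst ⟨cv h, cv_mem hm⟩
    have h4 : cv h h = 1 := by unfold cv; rw [if_pos rfl]
    have h5 : cv h i ≤ 0 := by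
      unfold cv
      rw [if_neg hih.ne]
      split_ifs <;> norm_num
    have h6 := hle h j
    rw [h4] at h3
    linarith
  have hmi : ¬ Md p d i := fun hm => h1 (hx3 i h hm hmh)
  refine ⟨hmh, hmi, ?_⟩
  rw [sg_out hmi]
  have h3 : 2 * cv i h = cv i i + cv i j := hst ⟨cv i, cv_mem hmi⟩
  have h4 : cv i i = 1 := by unfold cv; rw [if_pos rfl]
  have h5 : cv i h = 0 := by
    have h6 := cv_mem hmi h
    rw [sg_mid hmh] at h6
    linarith
  rw [h4, h5] at h3
  have h7 : cv i j = -1 := by linarith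
  unfold cv at h7
  by_contra h8
  rw [if_neg h8] at h7
  split_ifs at h7 <;> norm_num at h7

theorem abo : AboStmt := by
  intro p d ρ x hxn y hyn hx hy
  have hterm : ∀ i h j : Fin (2 * p + d), x i h * y h j = y i h * x h j := by
    intro i h j
    by_cases hc : Md p d h ∧ ¬ Md p d i ∧ j = sg p d i
    · obtain ⟨a, b, c⟩ := hc
      have h1 := hxn.2.1 i h
      have h2 := hyn.2.1 i h
      rw [sg_mid a, ← c] at h1 h2
      rw [h1, h2]
      ring
    · have h1 : x i h * y h j = 0 := by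
        by_contra h0
        have ha : x i h ≠ 0 := fun h' => h0 (by rw [h', zero_mul])
        have hb : y h j ≠ 0 := fun h' => h0 (by rw [h', mul_zero])
        exact hc (key hxn hx hy ha hb)
      have h2 : y i h * x h j = 0 := by
        by_contra h0
        have ha : y i h ≠ 0 := fun h' => h0 (by rw [h', zero_mul])
        have hb : x h j ≠ 0 := fun h' => h0 (by rw [h', mul_zero])
        exact hc (key hyn hy hx ha hb)
      rw [h1, h2]
  rw [sub_eq_zero]
  ext i j
  rw [Matrix.mul_apply, Matrix.mul_apply]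
  exact Finset.sum_congr rfl fun h _ => hterm i h j

end Pool.Agent.QSN.H58
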